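import Pool.Agent.K6.H18.AJ.Two

/-!
# The rational Abel-Jacobi map in codimension two: reduction to projective varieties

Setting as in the case in point: `C` is the category of geometric motives over the algebraic numbers
with rational coefficients, `I` its unit, `P` the Chow motives, `ρ : C ⥤ D` the Hodge realisation in
the bounded derived category of graded-polarizable mixed Hodge structures and `H` the vector space
underlying the zeroth cohomology. The properties in `IsHodge` are known theorems. For a smooth
quasi-projective variety `U` put `N = M(U)^∨(2)[4]`, so that the group of morphisms `I ⟶ N` is
`CH²(U; ℚ)` and the kernel of `ρ` on it is the kernel of the rational Abel-Jacobi map. Let `V` be the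
class of all these objects, and `X` the class of those where `U` is projective.

Then `IsSplitClass` holds. Let `U` have the smooth compactification `Y` with boundary a normal
crossing divisor with components `D_i`. The objects are `M`, from `Y`, and `M'`, the sum of those from
the `D_i`, with morphisms `I ⟶ M'` the sum of the groups `CH¹(D_i; ℚ)`.
* All Hodge classes on `M'` are algebraic: the Lefschetz theorem on (1,1)-classes.
* The Gysin map from the sum of the `H¹(D_i)(1)` to `H³(Y)(2)` has an algebraic partial inverse: it is
  the adjoint for the polarizations, followed by a polynomial in the composition; the adjoint is
  algebraic since the inverses of the Lefschetz isomorphisms between degree one and the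
  complementary degree are algebraic (Picard and Albanese varieties).

Theorem. The rational Abel-Jacobi map in codimension two is injective for all smooth quasi-projective
varieties over the algebraic numbers if and only if it is injective for all smooth projective ones.

The proof shows this for each `U` and its compactification `Y`. With the theorem of Bloch and
Srinivas the map in codimension two is injective for all open subvarieties of smooth projective
varieties whose zero-cycles are supported on a curve, for instance of rationally connected ones.
The same theorem applies to zero-cycles on varieties of any dimension and, if the Hodge conjecture
is assumed, to all codimensions.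

Steps of the proof. Let `z` on `U` have zero realisation. It extends to `z₀` on `Y`, the realisation of
`z₀` being the image of a class `η` on the boundary. Subtracting an algebraic class with the same
cohomology class as `η` one may assume that `η` lies in the Picard variety of the boundary. Then
`z₀` and its image `z₁` under the algebraic correspondence which is the partial inverse followed by
the Gysin map have the same realisation, so `z₀ = z₁` by injectivity for `Y`, and `z₁` is supported on
the boundary.
-/

set_option autoImplicit false

open CategoryTheory Limits Pretriangulated

universe v u v' u' w

namespace Pool.Agent.Results.MP_537ea0_ag.ReductionToProjective

open Pool.Agent.K6.H18.AJ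

/-- Injectivity of the Abel-Jacobi map for the open varieties is equivalent to injectivity for the
projective ones, if the Hodge classes on the boundary are algebraic and the Gysin map of the
boundary has an algebraic partial inverse on the intermediate Jacobians, as is known in codimension
two. -/
theorem result {C : Type u} [Category.{v} C] [Preadditive C] [HasZeroObject C] [HasShift C ℤ]
    [∀ n : ℤ, (shiftFunctor C n).Additive] [Pretriangulated C] [Linear ℚ C]
    {D : Type u'} [Category.{v'} D] [Preadditive D] [HasZeroObject D] [HasShift D ℤ]
    [∀ n : ℤ, (shiftFunctor D n).Additive] [Pretriangulated D]
    {E : Type w} [Field E] [CharZero E] (ρ : C ⥤ D) [ρ.CommShift ℤ] [ρ.IsTriangulated]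
    (H : D ⥤ ModuleCat.{w} E) [H.Additive] (I : C) (P V X : C → Prop) (h : IsHodge ρ H I P)
    (hV : IsSplitClass ρ H I P V X) :
    (∀ N, V N → Injective ρ I N) ↔ ∀ M, X M → Injective ρ I M :=
  split_iff h hV

end Pool.Agent.Results.MP_537ea0_ag.ReductionToProjective
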